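import Pool.Agent.H85.PS.Targets

set_option autoImplicit false

open Polynomial Finset Pool.Agent.H85.PS

namespace Pool.Agent.H12.PSV

lemma evf_lin {s : ℕ} (b : Fin s → ℚ) (D l : ℕ) (c : Fin l → ℚ[X]) (B : Fin l → Vec s) :
    evf b D (fun e => ∑ i, c i * B i e) = ∑ i, ((c i : ℚ[X]) : PowerSeries ℚ) * evf b D (B i) := by
  unfold evf
  simp_rw [Finset.mul_sum]
  rw [Finset.sum_comm]
  refine Finset.sum_congr rfl fun e _ => ?_
  have h1 : ((∑ i, c i * B i e : ℚ[X]) : PowerSeries ℚ)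
      = ∑ i, ((c i : ℚ[X]) : PowerSeries ℚ) * ((B i e : ℚ[X]) : PowerSeries ℚ) := by
    rw [← Polynomial.coeToPowerSeries.ringHom_apply, map_sum]
    refine Finset.sum_congr rfl fun i _ => ?_
    rw [Polynomial.coeToPowerSeries.ringHom_apply, Polynomial.coe_mul]
  rw [h1, Finset.sum_mul]
  refine Finset.sum_congr rfl fun i _ => ?_
  rw [mul_assoc]

lemma zero_mem_II (s D : ℕ) : (0 : Fin s → ℕ) ∈ II s D := by
  unfold II
  simp

lemma evf_const {s : ℕ} (b : Fin s → ℚ) (D : ℕ) (d : ℚ[X]) :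
    evf b D (fun e => if e = 0 then d else 0) = (d : PowerSeries ℚ) := by
  unfold evf
  rw [Finset.sum_eq_single_of_mem (0 : Fin s → ℕ) (zero_mem_II s D)]
  · simp
  · intro e _ he
    simp [he]

lemma dvd_of_dvd {n : ℕ} {d : ℚ[X]} (h : (PowerSeries.X : PowerSeries ℚ) ^ n ∣ (d : PowerSeries ℚ)) :
    (X : ℚ[X]) ^ n ∣ d := by
  rw [PowerSeries.X_pow_dvd_iff] at h
  rw [Polynomial.X_pow_dvd_iff]
  intro i hi
  have := h i hi
  rwa [Polynomial.coeff_coe] at this

theorem pf_RNK (h1 : T_SPD) (h2 : T_EVI) (h3 : T_CYC) : T_RNK := by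
  intro s D m T b hb hb0 A hS hD hA hT hlt hdet
  obtain ⟨l, J, c, hl, hd, hid⟩ := h3 s D b hb hb0 A hS hA hdet
  set d := Matrix.det (Matrix.of fun i j : Fin l => nabI b i A (J j)) with hddef
  have hl1 : 1 ≤ l := by
    by_contra hcon
    have hl0 : l = 0 := by omega
    subst hl0
    have h0 := hid 0
    simp only [Finset.univ_eq_empty, Finset.sum_empty, if_true] at h0
    exact hd h0.symm
  -- divisibility
  have hfun : (fun e => ∑ i, c i * nabI b i A e) = fun e => if e = 0 then d else 0 := funext hid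
  have hev : ((d : ℚ[X]) : PowerSeries ℚ) =
      ∑ i : Fin l, ((c i : ℚ[X]) : PowerSeries ℚ) * evf b D (nabI b i A) := by
    rw [← evf_const b D d, ← hfun]
    exact evf_lin b D l c (fun i => nabI b i A)
  have hdvd : (PowerSeries.X : PowerSeries ℚ) ^ (T + 1 - l) ∣ ((d : ℚ[X]) : PowerSeries ℚ) := by
    rw [hev]
    refine Finset.dvd_sum fun i _ => ?_
    refine Dvd.dvd.mul_left ?_ _
    refine dvd_trans (pow_dvd_pow _ ?_) (h2 s D T b A hS hT i)
    have := i.2
    omega
  have hdvd2 := dvd_of_dvd hdvd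
  have hdeg : T + 1 - l ≤ d.natDegree := by
    have h4 := Polynomial.natDegree_le_of_dvd hdvd2 hd
    rwa [Polynomial.natDegree_X_pow] at h4
  -- degree
  have hdeg2 : d.natDegree ≤ l * m + l * l * s := by
    rw [hddef, Matrix.det_apply]
    refine Polynomial.natDegree_sum_le_of_forall_le _ _ fun σ _ => ?_
    refine (Polynomial.natDegree_smul_le _ _).trans ?_
    refine (Polynomial.natDegree_prod_le _ _).trans ?_
    calc ∑ i : Fin l, ((Matrix.of fun i j : Fin l => nabI b i A (J j)) (σ i) i).natDegree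
        ≤ ∑ i : Fin l, (m + l * s) := by
          refine Finset.sum_le_sum fun i _ => ?_
          have h5 := (h1 s D m b A hS hD (σ i : ℕ)).2 (J i)
          have h6 : ((σ i : ℕ)) * s ≤ l * s := Nat.mul_le_mul_right s (σ i).2.le
          calc _ ≤ m + (σ i : ℕ) * s := h5
            _ ≤ m + l * s := by omega
      _ = l * m + l * l * s := by
          rw [Finset.sum_const, Finset.card_univ, Fintype.card_fin, smul_eq_mul]
          ring
  have h7 : l ≤ MM s D - 1 := by omega
  have h8 : l * m ≤ (MM s D - 1) * m := Nat.mul_le_mul_right m h7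
  have h9 : l * l * s ≤ MM s D * MM s D * s :=
    Nat.mul_le_mul_right s (Nat.mul_le_mul hl.le hl.le)
  omega

end Pool.Agent.H12.PSV
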